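import Pool.Agent.Y187.SP.Final
import Pool.Agent.Helper292.ForceCH

/-!
`S₁(Ω, Ω)` and `S₁(Ω, O^{ωgp})` are not provably equivalent for sets of reals: under the continuum
hypothesis (which is forced by a forcing notion preserving `ω₁`) there is a set of reals with the
second property and without the first one.
-/

set_option autoImplicit false

namespace Pool.Agent.Results.MP_82c070_gt.ConsistentlyNotEquivalent

open Pool.Agent.Y187.SP

theorem result :
    (∃ (P : Type) (_ : Preorder P), Nonempty P ∧ ∀ p : P,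
      p ∈ Pool.Agent.Helper292.ForceCH.OmegaOnePreserved P ∧
      p ∈ Pool.Agent.Helper292.ForceCH.CHHolds P) ∧
    (Cardinal.aleph 1 = Cardinal.continuum.{0} →
      ∃ X : Set ℝ, S1 (Y := X) IsOmegaCover IsOmegaGroupable ∧
        ¬ S1 (Y := X) IsOmegaCover IsOmegaCover) := by
  refine ⟨?_, exists_X_groupable⟩
  obtain ⟨P, i, h1, h2⟩ := Pool.Agent.Helper292.ForceCH.exists_forcing
  exact ⟨P, i, h1, fun p => ⟨(h2 p).1, (h2 p).2.2⟩⟩

end Pool.Agent.Results.MP_82c070_gt.ConsistentlyNotEquivalent
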